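import Pool.Agent.Z85.HS.Red

/-!
# MP_eb6d87_lc: polynomial identity testing reduces to quantifier-free high-school arithmetic

The definitions are in `Pool.Agent.Z85.HS.Defs` (arithmetic formulas `AF`, closed terms `HT` and
quantifier-free sentences `QF` of high-school arithmetic, their strings, `Identity`, `Theory`), in
`Pool.Agent.NPC.Defs` (bit strings, polynomial time, `Reduces`, `lang`) and in
`Pool.Agent.NPC.Classes` (`InPP`).

The variables of a pair of formulas of size `L` are replaced by the closed terms
`2 ^ (2 ^ ((L + 1) * (i + 1)))` (Kronecker substitution).
-/

namespace Pool.Agent.Results.MP_eb6d87_lc.IdentityTesting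

open Pool.Agent.NPC Pool.Agent.Z85.HS

/-- The set of the pairs of arithmetic formulas (with positive constants, variables, `+`, `*` and
powers with constant exponents, all numbers in binary) that define the same polynomial has a polynomial-time
many-one reduction to the quantifier-free theory of high-school arithmetic.  Hence it is decidable
in polynomial time if the quantifier-free theory of high-school arithmetic is. -/
theorem result : Reduces (lang Identity) (lang Theory) ∧ (InPP Theory → InPP Identity) :=
  ⟨reduces_lang poly_red red_iff, fun h => InPP.of_poly h poly_red red_iff⟩

end Pool.Agent.Results.MP_eb6d87_lc.IdentityTesting
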